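import Pool.Agent.W525.CB.Stm2
import Pool.Agent.W348.CB.ACANZ

/-!
# The canonical divisor of `X` (project CB)
-/

set_option autoImplicit false

open AlgebraicGeometry CategoryTheory Order

namespace Pool.Agent.W60.CB

open Pool.Agent.H187R3 Pool.Agent.W525.CB Pool.Agent.W348.CB

theorem ww_eq {n : ℕ} {L : Type} [Field L] {x y : Fin (n + 3) → L} (h : Dat x y)
    (σ : Equiv.Perm (Fin (n + 3))) (i : Fin (n + 3)) :
    ww x y σ i = uu x y (σ i) (σ 1) / uu x y (σ 0) (σ 1) := by
  have h0 : x (σ 0) ≠ 0 := h.nx _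
  have h01 : uu x y (σ 0) (σ 1) ≠ 0 := h.nu _ _ (by
    intro hh
    have := σ.injective hh
    exact absurd this (by simp [Fin.ext_iff]))
  unfold ww ss tt
  rw [eq_div_iff h01]
  have h02 : x (σ 0) ^ 2 ≠ 0 := pow_ne_zero _ h0
  field_simp
  unfold uu
  ring

theorem ww_ne {n : ℕ} {L : Type} [Field L] {x y : Fin (n + 3) → L} (h : Dat x y)
    (σ : Equiv.Perm (Fin (n + 3))) : ww x y σ 2 ≠ 0 := by
  rw [ww_eq h]
  apply div_ne_zero
  · apply h.nu
    intro hh
    have := σ.injective hh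
    have h2 := congrArg Fin.val this
    have e2 : ((2 : Fin (n + 3)) : ℕ) = 2 := by
      rw [Fin.val_two]
    have e1 : ((1 : Fin (n + 3)) : ℕ) = 1 := by
      rw [Fin.val_one]
    omega
  · apply h.nu
    intro hh
    have := σ.injective hh
    exact absurd this (by simp [Fin.ext_iff])

theorem main : S_ACANX := by
  classical
  intro parts n k E _ _ _ _ _ _ x y hn hE hnor hlif M
  have hnorM : IsNormalScheme M.X := hnor.1 M
  obtain ⟨X, Y, hdat, hX1, hκX, hκY, hκss, hκtt, hκww, hloc⟩ := hlif M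
  have hX0 : ∀ i, X i ≠ 0 := hdat.nx
  let algL : Algebra k M.X.functionField := (kmap M.f).toAlgebra
  obtain ⟨htr, hgen, hchart⟩ := hloc
  have hchar : CharP M.X.functionField (n + 2) :=
    charP_of_injective_algebraMap (algebraMap k M.X.functionField).injective (n + 2)
  choose c hc using fun σ => parts.bas n k M.X.functionField X Y hn hdat htr σ (hgen σ)
  choose sg sa hsa hsgU hsgI using (parts.cov n k E x y hn hE).1 M
  have hss0 : ∀ σ i, ss X σ i ≠ 0 := fun σ i => div_ne_zero (hX0 _) (hX0 _)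
  have hss : ∀ σ i, ss X σ i ∈ Algebra.adjoin k (Set.range (ss X σ) ∪ Set.range (tt X Y σ)) :=
    fun σ i => Algebra.subset_adjoin (Or.inl (Set.mem_range_self i))
  have htt : ∀ σ i, tt X Y σ i ∈ Algebra.adjoin k (Set.range (ss X σ) ∪ Set.range (tt X Y σ)) :=
    fun σ i => Algebra.subset_adjoin (Or.inr (Set.mem_range_self i))
  have hww : ∀ σ i, ww X Y σ i ∈ Algebra.adjoin k (Set.range (ss X σ) ∪ Set.range (tt X Y σ)) :=
    fun σ i => Subalgebra.sub_mem _ (Subalgebra.pow_mem _ (hss σ i) 2)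
      (Subalgebra.mul_mem _ (Subalgebra.pow_mem _ (hss σ 1) 2) (htt σ i))
  have hww0 : ∀ σ, ww X Y σ 2 ≠ 0 := fun σ => ww_ne hdat σ
  have hinv : ∀ P, (ww X Y (sg P) 2)⁻¹ ∈
      (algebraMap (M.X.presheaf.stalk P) M.X.functionField).range := by
    intro P
    obtain ⟨r, hr⟩ := hsgI P
    refine ⟨r, ?_⟩
    apply M.κ.injective
    rw [map_inv₀, hκww]
    exact hr
  have hlat : ∀ P, (Submodule.span (M.X.presheaf.stalk P) (Set.range (c (sg P))) :
      Submodule (M.X.presheaf.stalk P) _) =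
        diffLattice (M.X.presheaf.stalk P) M.X.functionField := by
    intro P
    have h1 : Set.range (c (sg P)) = Set.range (cfam X Y (sg P)) := by
      congr 1
      funext i
      exact hc (sg P) i
    rw [h1]
    exact parts.lat n k M.X.functionField X Y hn hdat (sg P) (M.X.presheaf.stalk P)
      (hchart (sg P) (sa P) (hsa P) P (hsgU P)).1 (hchart (sg P) (sa P) (hsa P) P (hsgU P)).2
      (hinv P)
  let t : Fin (n + 1) ⊕ Fin n → M.X.functionField := Sum.elim (fun i => tt X Y 1 i.succ.succ)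
    (fun i => ss X 1 i.succ.succ.succ)
  have hct : ∀ i, c 1 i = KaehlerDifferential.D ℤ M.X.functionField (t i) := by
    intro i
    rw [hc 1 i]
    rcases i with i | i
    · rfl
    · rfl
  have hcf : cfam X Y 1 = fun i => KaehlerDifferential.D ℤ M.X.functionField (t i) := by
    funext i
    rw [← hct i, hc 1 i]
  have hklt : IsKlt M.X := parts.klt k (n + 2) M.X M.f hnorM (Fin (n + 1) ⊕ Fin n) t (c 1) hct
    (fun P => ⟨c (sg P), hlat P⟩)
  set δ : M.X → M.X.functionField := fun P =>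
    (c (sg P)).det (fun i => KaehlerDifferential.D ℤ M.X.functionField (t i)) with hδ
  have hδ0 : ∀ P, δ P ≠ 0 := by
    intro P
    have h1 : (fun i => KaehlerDifferential.D ℤ M.X.functionField (t i)) = c 1 := by
      funext i
      exact (hct i).symm
    rw [hδ]
    simp only
    rw [h1]
    exact ((c (sg P)).isUnit_det (c 1)).ne_zero
  refine ⟨hklt, fun P => Scheme.ord (δ P) P, ww X Y 1 2 ^ (n + 2), pow_ne_zero _ (hww0 _),
    ⟨Fin (n + 1) ⊕ Fin n, inferInstance, inferInstance, t, fun P _ =>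
      ⟨c (sg P), hlat P, hδ0 P, rfl⟩⟩, ?_⟩
  intro P hP σ a ha hσ H hH
  -- the function `H`
  have hHX : H = (X (σ 0))⁻¹ := by
    apply M.κ.injective
    rw [hH, map_inv₀, hκX, inv_div]
  -- the volume forms
  have hvol := parts.vol n M.X.functionField X Y hn hdat (sg P) (c (sg P)).det
  have hA1 : (c (sg P)).det (cfam X Y (sg P)) = 1 := by
    have h1 : cfam X Y (sg P) = c (sg P) := by
      funext i
      exact (hc (sg P) i).symm
    rw [h1]
    exact (c (sg P)).det_self
  have hA2 : (c (sg P)).det (cfam X Y 1) = δ P := by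
    rw [hcf]
  have e1 : Scheme.ord (ww X Y 1 2 ^ (n + 2)) P =
      Scheme.ord (δ P * (ww X Y (sg P) 2 ^ (n + 2) * X (sg P 0) ^ (n + 1))) P := by
    rcases hvol with h | h
    · rw [hA1, hA2, hX1, one_pow, mul_one, one_mul] at h
      rw [h]
    · rw [hA1, hA2, hX1, one_pow, mul_one, one_mul] at h
      rw [h, ord_neg' P (mul_ne_zero (hδ0 P) (mul_ne_zero (pow_ne_zero _ (hww0 _))
        (pow_ne_zero _ (hX0 _))))]
  rw [Scheme.ord_mul (hδ0 P) (mul_ne_zero (pow_ne_zero _ (hww0 _)) (pow_ne_zero _ (hX0 _))),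
    Scheme.ord_mul (pow_ne_zero _ (hww0 _)) (pow_ne_zero _ (hX0 _)),
    ord_pow' P (hww0 (sg P)), ord_pow' P (hX0 _)] at e1
  have e2 : Scheme.ord (ww X Y (sg P) 2) P = 0 :=
    ord_unit parts.ord hnorM P hP (hww0 _)
      ((hchart (sg P) (sa P) (hsa P) P (hsgU P)).1 _ (hww _ _)) (hinv P)
  -- independence of the chart
  have e3 : Scheme.ord (X (σ 0)) P = Scheme.ord (X (sg P 0)) P := by
    have h1 : ss X (sg P) ((sg P)⁻¹ (σ 0)) = X (σ 0) / X (sg P 0) := by
      simp [ss]
    have h2 : ss X σ (σ⁻¹ (sg P 0)) = X (sg P 0) / X (σ 0) := by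
      simp [ss]
    have h3 : Scheme.ord (X (σ 0) / X (sg P 0)) P = 0 := by
      apply ord_unit parts.ord hnorM P hP (div_ne_zero (hX0 _) (hX0 _))
      · rw [← h1]
        exact (hchart (sg P) (sa P) (hsa P) P (hsgU P)).1 _ (hss _ _)
      · rw [inv_div, ← h2]
        exact (hchart σ a ha P hσ).1 _ (hss _ _)
    rw [div_eq_mul_inv, Scheme.ord_mul (hX0 _) (inv_ne_zero (hX0 _)), ord_inv' P (hX0 _)] at h3
    omega
  rw [e2] at e1
  rw [hHX, ord_inv' P (hX0 _), e3, e1]
  push_cast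
  ring

end Pool.Agent.W60.CB
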